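import Mathlib

/-!
# Shortest words containing many permutations as subsequences (MP_6c7e5c_co)

`h n m` is the least length of a word over `[n]` containing at least `m` distinct permutations,
`ell m n` is the least `l` with `m ≤ choose l n`.  We prove `h n m ≤ 12 * ell m n`.
-/

namespace Pool.Agent.Results.MP_6c7e5c_co.LinearInEll

/-- A word `w` of length `L` over `Fin n` contains the permutation `π` of `Fin n` (read as the
word `π 0, π 1, …, π (n-1)`) if there are increasing positions at which `w` reads `π`. -/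
def Contains {n L : ℕ} (w : Fin L → Fin n) (π : Equiv.Perm (Fin n)) : Prop :=
  ∃ p : Fin n → Fin L, StrictMono p ∧ ∀ j, w (p j) = π j

/-- The number of distinct permutations of `Fin n` contained in `w`. -/
noncomputable def numContained {n L : ℕ} (w : Fin L → Fin n) : ℕ :=
  Nat.card {π : Equiv.Perm (Fin n) // Contains w π}

/-- `h n m`: the least length of a word over `Fin n` containing at least `m` permutations. -/
noncomputable def h (n m : ℕ) : ℕ :=
  sInf {L : ℕ | ∃ w : Fin L → Fin n, m ≤ numContained w}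

/-- `ell m n`: the least `l` with `m ≤ choose l n`. -/
noncomputable def ell (m n : ℕ) : ℕ := sInf {l : ℕ | m ≤ l.choose n}

section Word

variable {n : ℕ}

/-- The word `(0 1 … n-1)^k`. -/
def cyc (n : ℕ) [NeZero n] (k : ℕ) : Fin (k * n) → Fin n := fun p => Fin.ofNat n p

/-- position of letter `i` in block `b`. -/
def pos {n k : ℕ} (b : Fin k) (i : Fin n) : Fin (k * n) :=
  ⟨n * b + i, by
    have h1 := b.isLt
    have h2 := i.isLt
    calc n * b + i < n * b + n := by omega
      _ = n * (b + 1) := by ring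
      _ ≤ n * k := Nat.mul_le_mul_left n h1
      _ = k * n := Nat.mul_comm _ _⟩

lemma cyc_pos [NeZero n] {k : ℕ} (b : Fin k) (i : Fin n) : cyc n k (pos b i) = i := by
  apply Fin.ext
  simp [cyc, pos, Nat.mod_eq_of_lt i.isLt]

lemma pos_inj {k : ℕ} {b b' : Fin k} {i i' : Fin n} (hh : pos b i = pos b' i') :
    b = b' ∧ i = i' := by
  have h0 : n * (b : ℕ) + i = n * b' + i' := by
    have := congrArg Fin.val hh
    simpa [pos] using this
  have hn : 0 < n := lt_of_le_of_lt (Nat.zero_le _) i.isLt
  have h1 : (i : ℕ) = i' := by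
    have := congrArg (· % n) h0
    simpa [Nat.mod_eq_of_lt i.isLt, Nat.mod_eq_of_lt i'.isLt] using this
  have h2 : (b : ℕ) = b' := by
    have h3 : n * (b : ℕ) = n * b' := by omega
    exact Nat.eq_of_mul_eq_mul_left hn h3
  exact ⟨Fin.ext h2, Fin.ext h1⟩

/-- the set of positions used by the block assignment `f`. -/
def posSet {k : ℕ} (f : Fin n → Fin k) : Finset (Fin (k * n)) :=
  Finset.univ.image (fun i => pos (f i) i)

lemma posSet_card {k : ℕ} (f : Fin n → Fin k) : (posSet f).card = n := by
  rw [posSet, Finset.card_image_of_injective]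
  · simp
  · intro i i' hh
    exact (pos_inj hh).2

/-- The increasing enumeration of the positions. -/
def sig {k : ℕ} (f : Fin n → Fin k) : Fin n ↪o Fin (k * n) :=
  (posSet f).orderEmbOfFin (posSet_card f)

lemma sig_eq [NeZero n] {k : ℕ} (f : Fin n → Fin k) (j : Fin n) :
    sig f j = pos (f (cyc n k (sig f j))) (cyc n k (sig f j)) := by
  have hm : sig f j ∈ posSet f := Finset.orderEmbOfFin_mem _ _ _
  rw [posSet, Finset.mem_image] at hm
  obtain ⟨i, -, hi⟩ := hm
  rw [← hi, cyc_pos]

lemma read_inj [NeZero n] {k : ℕ} (f : Fin n → Fin k) :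
    Function.Injective (fun j => cyc n k (sig f j)) := by
  intro j j' hh
  have h1 := sig_eq f j
  have h2 := sig_eq f j'
  simp only at hh
  rw [hh, ← h2] at h1
  exact (sig f).injective h1

/-- The permutation read off. -/
noncomputable def perm [NeZero n] {k : ℕ} (f : Fin n → Fin k) : Equiv.Perm (Fin n) :=
  Equiv.ofBijective (fun j => cyc n k (sig f j))
    (Finite.injective_iff_bijective.mp (read_inj f))

lemma perm_apply [NeZero n] {k : ℕ} (f : Fin n → Fin k) (j : Fin n) :
    perm f j = cyc n k (sig f j) := rfl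

lemma perm_contained [NeZero n] {k : ℕ} (f : Fin n → Fin k) : Contains (cyc n k) (perm f) :=
  ⟨sig f, (sig f).strictMono, fun _ => rfl⟩

lemma mono_comp [NeZero n] {k : ℕ} (f : Fin n → Fin k) : Monotone (fun j => f (perm f j)) := by
  intro j j' hjj
  by_contra hlt
  push Not at hlt
  have h1 := sig_eq f j
  have h2 := sig_eq f j'
  have h3 : sig f j ≤ sig f j' := (sig f).monotone hjj
  rw [h1, h2] at h3
  rw [← perm_apply, ← perm_apply] at h3
  have h4 : n * (f (perm f j) : ℕ) + (perm f j) ≤ n * (f (perm f j')) + (perm f j') := by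
    simpa [pos] using h3
  have h5 : (f (perm f j') : ℕ) + 1 ≤ f (perm f j) := hlt
  have h6 := (perm f j').isLt
  have h7 : n * ((f (perm f j') : ℕ) + 1) ≤ n * f (perm f j) := Nat.mul_le_mul_left n h5
  rw [Nat.mul_add] at h7
  omega

/-- There are at most `4 ^ n` weakly increasing maps `Fin n → Fin k` when `k ≤ n`. -/
lemma card_mono_le {k : ℕ} (hk : k ≤ n) : Nat.card {g : Fin n → Fin k // Monotone g} ≤ 4 ^ n := by
  classical
  let F : {g : Fin n → Fin k // Monotone g} → Finset (Fin (2 * n)) := fun g =>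
    Finset.univ.image (fun j : Fin n => (⟨(g.1 j : ℕ) + j, by
      have := (g.1 j).isLt; have := j.isLt; omega⟩ : Fin (2 * n)))
  have hF : Function.Injective F := by
    intro g g' hh
    have hs : ∀ g : {g : Fin n → Fin k // Monotone g},
        StrictMono (fun j : Fin n => (⟨(g.1 j : ℕ) + j, by
      have := (g.1 j).isLt; have := j.isLt; omega⟩ : Fin (2 * n))) := by
      intro g j j' hjj
      have h1 : g.1 j ≤ g.1 j' := g.2 hjj.le
      have h1' : (g.1 j : ℕ) ≤ g.1 j' := h1
      have h2 : (j : ℕ) < j' := hjj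
      show (g.1 j : ℕ) + j < (g.1 j' : ℕ) + j'
      omega
    have hr := congrArg (fun s : Finset (Fin (2 * n)) => (s : Set (Fin (2 * n)))) hh
    simp only [F, Finset.coe_image, Finset.coe_univ, Set.image_univ] at hr
    have hfun := (StrictMono.range_inj (hs g) (hs g')).mp hr
    apply Subtype.ext
    funext j
    have := congrFun hfun j
    have h3 := congrArg Fin.val this
    simp only at h3
    apply Fin.ext
    omega
  calc Nat.card {g : Fin n → Fin k // Monotone g} ≤ Nat.card (Finset (Fin (2 * n))) :=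
        Nat.card_le_card_of_injective F hF
    _ = 4 ^ n := by
        rw [Nat.card_eq_fintype_card, Fintype.card_finset, Fintype.card_fin, pow_mul]; norm_num

/-- The word `(0 1 … n-1)^k` contains at least `(k/4)^n` permutations. -/
lemma pow_le_numContained [NeZero n] {k : ℕ} (hk : k ≤ n) :
    k ^ n ≤ 4 ^ n * numContained (cyc n k) := by
  classical
  let F : (Fin n → Fin k) →
      {g : Fin n → Fin k // Monotone g} × {π : Equiv.Perm (Fin n) // Contains (cyc n k) π} :=
    fun f => (⟨fun j => f (perm f j), mono_comp f⟩, ⟨perm f, perm_contained f⟩)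
  have hF : Function.Injective F := by
    intro f f' hh
    have h1 : (fun j => f (perm f j)) = fun j => f' (perm f' j) := by
      have := congrArg (fun x => x.1.1) hh
      simpa [F] using this
    have h2 : perm f = perm f' := by
      have := congrArg (fun x => x.2.1) hh
      simpa [F] using this
    funext i
    have h3 := congrFun h1 ((perm f).symm i)
    simp only [Equiv.apply_symm_apply] at h3
    rw [h2, Equiv.apply_symm_apply] at h3
    exact h3
  have hc := Nat.card_le_card_of_injective F hF
  rw [Nat.card_prod] at hc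
  have h0 : Nat.card (Fin n → Fin k) = k ^ n := by
    rw [Nat.card_eq_fintype_card, Fintype.card_fun, Fintype.card_fin, Fintype.card_fin]
  rw [h0] at hc
  exact hc.trans (Nat.mul_le_mul_right _ (card_mono_le hk))

/-- The word `(0 1 … n-1)^n` contains all permutations. -/
lemma numContained_full [NeZero n] : numContained (cyc n n) = n.factorial := by
  classical
  have hall : ∀ π : Equiv.Perm (Fin n), Contains (cyc n n) π := by
    intro π
    refine ⟨fun j => pos j (π j), ?_, fun j => cyc_pos _ _⟩
    intro j j' hjj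
    show n * (j : ℕ) + π j < n * j' + π j'
    have h1 : (j : ℕ) + 1 ≤ j' := hjj
    have h2 := Nat.mul_le_mul_left n h1
    rw [Nat.mul_add] at h2
    have := (π j).isLt
    omega
  unfold numContained
  rw [Nat.card_congr (Equiv.subtypeUnivEquiv hall), Nat.card_eq_fintype_card,
    Fintype.card_perm, Fintype.card_fin]

end Word

/-- the main estimate. -/
lemma exists_word {n m : ℕ} (hn : 1 ≤ n) (hm : 1 ≤ m) (hmn : m ≤ n.factorial) {l : ℕ}
    (hl : m ≤ l.choose n) :
    ∃ L : ℕ, L ≤ 12 * l ∧ ∃ w : Fin L → Fin n, m ≤ numContained w := by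
  have : NeZero n := ⟨by omega⟩
  have hln : n ≤ l := by
    by_contra hlt
    rw [Nat.choose_eq_zero_of_lt (by omega)] at hl
    omega
  have hnR : (0 : ℝ) < n := by exact_mod_cast hn
  have he : Real.exp 1 < 2.7182818286 := Real.exp_one_lt_d9
  have he0 : 0 < Real.exp 1 := Real.exp_pos 1
  have hl0 : (0 : ℝ) ≤ l := Nat.cast_nonneg l
  set x : ℝ := 4 * Real.exp 1 * l / n with hx
  by_cases hk : ⌈x⌉₊ ≤ n
  · refine ⟨⌈x⌉₊ * n, ?_, cyc n _, ?_⟩
    · have hx0 : 0 ≤ x := by positivity
      have h1 : (⌈x⌉₊ : ℝ) < x + 1 := Nat.ceil_lt_add_one hx0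
      have h2 : ((⌈x⌉₊ * n : ℕ) : ℝ) ≤ ((12 * l : ℕ) : ℝ) := by
        push_cast
        calc (⌈x⌉₊ : ℝ) * n ≤ (x + 1) * n := by gcongr
          _ = 4 * Real.exp 1 * l + n := by rw [hx]; field_simp
          _ ≤ 4 * Real.exp 1 * l + l := by
              have : (n : ℝ) ≤ l := by exact_mod_cast hln
              linarith
          _ ≤ 12 * l := by nlinarith
      exact_mod_cast h2
    · have h1 := pow_le_numContained (n := n) hk
      have h2 : x ≤ ⌈x⌉₊ := Nat.le_ceil x
      have h3 : (Real.exp 1 * l / n) ^ n ≤ numContained (cyc n ⌈x⌉₊) := by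
        have h4 : ((⌈x⌉₊ : ℝ)) ^ n ≤ 4 ^ n * numContained (cyc n ⌈x⌉₊) := by
          exact_mod_cast h1
        have h5 : x ^ n ≤ (⌈x⌉₊ : ℝ) ^ n := by gcongr
        have h6 : x ^ n = 4 ^ n * (Real.exp 1 * l / n) ^ n := by
          rw [← mul_pow]; congr 1; rw [hx]; ring
        rw [h6] at h5
        have h7 := h5.trans h4
        exact le_of_mul_le_mul_left h7 (by positivity)
      have h8 : ((l.choose n : ℕ) : ℝ) ≤ (Real.exp 1 * l / n) ^ n := by
        have h9 : ((l.choose n : ℕ) : ℝ) ≤ (l : ℝ) ^ n / n.factorial :=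
          Nat.choose_le_pow_div n l
        have h10 : (n : ℝ) ^ n / n.factorial ≤ Real.exp n :=
          Real.pow_div_factorial_le_exp (n : ℝ) (by positivity) n
        have h11 : Real.exp (n : ℝ) = Real.exp 1 ^ n := by
          rw [← Real.exp_nat_mul]; simp
        rw [h11] at h10
        have hf : (0 : ℝ) < n.factorial := by exact_mod_cast n.factorial_pos
        calc ((l.choose n : ℕ) : ℝ) ≤ (l : ℝ) ^ n / n.factorial := h9
          _ = (l : ℝ) ^ n / n ^ n * (n ^ n / n.factorial) := by field_simp
          _ ≤ (l : ℝ) ^ n / n ^ n * Real.exp 1 ^ n := by gcongr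
          _ = (Real.exp 1 * l / n) ^ n := by rw [div_pow, mul_pow]; ring
      have h12 : (m : ℝ) ≤ (numContained (cyc n ⌈x⌉₊) : ℝ) := by
        calc (m : ℝ) ≤ ((l.choose n : ℕ) : ℝ) := by exact_mod_cast hl
          _ ≤ _ := h8.trans h3
      exact_mod_cast h12
  · push Not at hk
    refine ⟨n * n, ?_, cyc n n, ?_⟩
    · have h1 : (n : ℝ) < x := Nat.lt_ceil.mp hk
      rw [hx, lt_div_iff₀ hnR] at h1
      have h2 : ((n * n : ℕ) : ℝ) ≤ ((12 * l : ℕ) : ℝ) := by
        push_cast
        nlinarith
      exact_mod_cast h2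
    · rw [numContained_full]
      exact hmn

/-- **Answer to MP_6c7e5c_co (yes, with `C = 12`).**  For all `n ≥ 1` and `1 ≤ m ≤ n!`, some word
over `Fin n` of length `h n m` contains at least `m` permutations (so that `h n m` is a genuine
minimum), `m ≤ choose (ell m n) n`, and `h n m ≤ 12 * ell m n`. -/
theorem result (n m : ℕ) (hn : 1 ≤ n) (hm : 1 ≤ m) (hmn : m ≤ n.factorial) :
    (∃ w : Fin (h n m) → Fin n, m ≤ numContained w) ∧ m ≤ (ell m n).choose n ∧
      h n m ≤ 12 * ell m n := by
  have hne : {l : ℕ | m ≤ l.choose n}.Nonempty := by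
    refine ⟨m + n, ?_⟩
    show m ≤ (m + n).choose n
    have h1 : (m + n).choose n = (m + n).choose m := by
      rw [← Nat.choose_symm_add]
    have h2 : (m + 1).choose m ≤ (m + n).choose m := Nat.choose_le_choose m (by omega)
    rw [h1]
    refine le_trans ?_ h2
    rw [Nat.choose_succ_self_right]
    omega
  have hell : m ≤ (ell m n).choose n := Nat.sInf_mem hne
  obtain ⟨L, hL, hw⟩ := exists_word hn hm hmn hell
  have hne2 : {L : ℕ | ∃ w : Fin L → Fin n, m ≤ numContained w}.Nonempty := ⟨L, hw⟩
  refine ⟨Nat.sInf_mem hne2, hell, ?_⟩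
  exact (Nat.sInf_le hw).trans hL

end Pool.Agent.Results.MP_6c7e5c_co.LinearInEll
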